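import Pool.Agent.RNB.Spots

set_option autoImplicit false

/-!
# Project RN, plan C (MP_bd0985_co, S11118): module C1, the realisation theorem

`RNB.realise_gen` : base weights `D`, general positions of the items.
`RNB.realise` : from `Drawn` and `SpotData` to a price instance.
-/

open Filter Topology Finset

namespace RNB

/-- weak duality with prices: every optimal matching has the range of the tight one -/
theorem map_eq_of_dual {α β : Type*} [Fintype α] [Fintype β] [DecidableEq β] (c : α → β → ℝ)
    (u : α → ℝ) (p : β → ℝ) (R : Finset β) (hfeas : ∀ a b, u a ≤ c a b + p b)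
    (hpos : ∀ b ∈ R, 0 < p b) (hzero : ∀ b, b ∉ R → p b = 0) (π : α ↪ β)
    (hπ : Finset.univ.map π = R) (htight : ∀ a, c a (π a) + p (π a) = u a) (σ : α ↪ β)
    (hσ : ∑ a, c a (σ a) ≤ ∑ a, c a (π a)) : Finset.univ.map σ = R := by
  classical
  have hsub : R ⊆ Finset.univ.map σ := by
    intro b0 hb0
    by_contra hb0'
    have h1 : ∑ a, u a ≤ ∑ a, c a (σ a) + ∑ a, p (σ a) := by
      rw [← Finset.sum_add_distrib]
      exact Finset.sum_le_sum fun a _ => hfeas a (σ a)
    have h2 : ∑ a, c a (π a) + ∑ a, p (π a) = ∑ a, u a := by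
      rw [← Finset.sum_add_distrib]
      exact Finset.sum_congr rfl fun a _ => htight a
    have hp0 : ∀ b, 0 ≤ p b := fun b => by
      by_cases hb : b ∈ R
      · exact (hpos b hb).le
      · exact (hzero b hb).ge
    have h3 : ∑ a, p (π a) = ∑ b, p b := by
      have : ∑ a, p (π a) = ∑ b ∈ Finset.univ.map π, p b := by rw [Finset.sum_map]
      rw [this, hπ]
      apply Finset.sum_subset (Finset.subset_univ _)
      intro b _ hb
      exact hzero b hb
    have h4 : ∑ a, p (σ a) + p b0 ≤ ∑ b, p b := by
      have : ∑ a, p (σ a) = ∑ b ∈ Finset.univ.map σ, p b := by rw [Finset.sum_map]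
      rw [this]
      have h5 := Finset.sum_insert (f := p) hb0'
      have h6 : ∑ b ∈ insert b0 (Finset.univ.map σ), p b ≤ ∑ b, p b :=
        Finset.sum_le_sum_of_subset_of_nonneg (Finset.subset_univ _) fun b _ _ => hp0 b
      rw [h5] at h6
      linarith
    have h7 := hpos b0 hb0
    linarith
  symm
  apply Finset.eq_of_subset_of_card_le hsub
  rw [← hπ, Finset.card_map, Finset.card_map]

/-- a threshold between two sets of numbers -/
theorem exists_threshold {S : Type*} [Finite S] (z : S → ℝ) (Q : S → Prop)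
    (h : ∀ s s', Q s → ¬ Q s' → z s ≤ z s') : ∃ δ : ℝ, ∀ s, (Q s → z s ≤ δ) ∧ (¬ Q s → δ ≤ z s) := by
  classical
  have := Fintype.ofFinite S
  by_cases hQ : ∃ s, Q s
  · obtain ⟨s0, hs0, hmax⟩ := (Finset.univ.filter Q).exists_max_image z
      (by obtain ⟨s, hs⟩ := hQ; exact ⟨s, by simp [hs]⟩)
    refine ⟨z s0, fun s => ⟨fun hs => hmax s (by simp [hs]), fun hs => h s0 s ?_ hs⟩⟩
    simpa using hs0
  · have hQ' : ∀ s, ¬ Q s := fun s hs => hQ ⟨s, hs⟩
    by_cases hS : Nonempty S
    · obtain ⟨s0, -, hmin⟩ := (Finset.univ : Finset S).exists_min_image z Finset.univ_nonempty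
      exact ⟨z s0, fun s => ⟨fun hs => absurd hs (hQ' s), fun _ => hmin s (Finset.mem_univ s)⟩⟩
    · exact ⟨0, fun s => (hS ⟨s⟩).elim⟩

/-- an embedding with prescribed fibres -/
theorem exists_tight {V κ : Type*} [Fintype V] [DecidableEq V] [Fintype κ] [DecidableEq κ] (ρ : V → ℕ)
    (R : Finset κ) (owner : κ → V) (hρ : ∀ v, (R.filter fun x => owner x = v).card = ρ v) :
    ∃ π : (Σ v, Fin (ρ v)) ↪ κ, Finset.univ.map π = R ∧ ∀ a, owner (π a) = a.1 := by
  classical
  have e : ∀ v, Nonempty (Fin (ρ v) ≃ {x // x ∈ R.filter fun x => owner x = v}) := by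
    intro v
    refine ⟨(Fintype.equivFinOfCardEq ?_).symm⟩
    rw [Fintype.card_coe, hρ]
  obtain ⟨f⟩ : Nonempty (∀ v, Fin (ρ v) ≃ {x // x ∈ R.filter fun x => owner x = v}) :=
    ⟨fun v => Classical.choice (e v)⟩
  have hmem : ∀ v (j : Fin (ρ v)), ((f v j : κ) ∈ R ∧ owner (f v j : κ) = v) := by
    intro v j
    have := (f v j).2
    rw [Finset.mem_filter] at this
    exact this
  refine ⟨⟨fun a => (f a.1 a.2 : κ), ?_⟩, ?_, fun a => (hmem a.1 a.2).2⟩
  · rintro ⟨v, j⟩ ⟨w, k⟩ h
    have hvw : v = w := by
      rw [← (hmem v j).2, ← (hmem w k).2]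
      exact congrArg owner h
    subst hvw
    have : f v j = f v k := Subtype.ext h
    rw [(f v).injective this]
  · ext x
    simp only [Finset.mem_map, Finset.mem_univ, true_and]
    constructor
    · rintro ⟨a, rfl⟩
      exact (hmem a.1 a.2).1
    · intro hx
      have hx' : x ∈ R.filter fun y => owner y = owner x := by
        rw [Finset.mem_filter]; exact ⟨hx, rfl⟩
      refine ⟨⟨owner x, (f (owner x)).symm ⟨x, hx'⟩⟩, ?_⟩
      change ((f (owner x) ((f (owner x)).symm ⟨x, hx'⟩) : κ)) = x
      rw [Equiv.apply_symm_apply]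

section fib

variable {V E G S : Type} [Fintype V] [Fintype E] [Fintype G] [DecidableEq V]
  {tail head : E → V} {tip : G → V} {b : G → E2} {mult : E → ℕ}

/-- the hub which uses the item `x` at the spot `s` -/
def owner (sd : SpotData tail head tip b mult S) (s : S) : (Σ e, Fin (mult e)) ⊕ G → V
  | .inl x => if (x.2 : ℕ) < sd.k s x.1 then tail x.1 else head x.1
  | .inr g => tip g

theorem owner_inl (sd : SpotData tail head tip b mult S) (s : S) (x : Σ e, Fin (mult e)) :
    owner sd s (.inl x) = if (x.2 : ℕ) < sd.k s x.1 then tail x.1 else head x.1 := rfl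

theorem owner_inr (sd : SpotData tail head tip b mult S) (s : S) (g : G) :
    owner sd s (.inr g) = tip g := rfl

theorem card_lt_fin (m k : ℕ) (h : k ≤ m) :
    (Finset.univ.filter fun j : Fin m => (j : ℕ) < k).card = k := by
  rw [Fin.card_filter_val_lt]
  omega

theorem card_owner (sd : SpotData tail head tip b mult S) (s : S) (v : V) :
    ((Finset.disjSum Finset.univ (sd.used s)).filter fun x => owner sd s x = v).card = sd.r v := by
  classical
  have h1 : ((Finset.disjSum (Finset.univ : Finset (Σ e, Fin (mult e))) (sd.used s)).filter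
      fun x => owner sd s x = v) =
      Finset.disjSum ((Finset.univ : Finset (Σ e, Fin (mult e))).filter
        fun x => owner sd s (.inl x) = v) ((sd.used s).filter fun g => tip g = v) := by
    ext x
    rcases x with x | g
    · simp only [Finset.mem_filter, Finset.inl_mem_disjSum, Finset.mem_univ]
    · simp only [Finset.mem_filter, Finset.inr_mem_disjSum, owner_inr]
  rw [h1, Finset.card_disjSum, ← sd.cons s v]
  congr 1
  have h2 : ((Finset.univ : Finset (Σ e, Fin (mult e))).filter
      fun x => owner sd s (.inl x) = v).card =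
      ∑ e, (Finset.univ.filter fun j : Fin (mult e) => owner sd s (.inl ⟨e, j⟩) = v).card := by
    rw [Finset.card_filter, ← Finset.univ_sigma_univ, Finset.sum_sigma]
    refine Finset.sum_congr rfl fun e _ => ?_
    rw [Finset.card_filter]
  rw [h2, Finset.sum_filter, Finset.sum_filter, ← Finset.sum_add_distrib]
  refine Finset.sum_congr rfl fun e _ => ?_
  have hk := sd.k_le s e
  have h3 := card_lt_fin (mult e) (sd.k s e) hk
  have h4 : (Finset.univ.filter fun j : Fin (mult e) => ¬ (j : ℕ) < sd.k s e).card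
      = mult e - sd.k s e := by
    have := Finset.card_filter_add_card_filter_not (s := (Finset.univ : Finset (Fin (mult e))))
      (fun j : Fin (mult e) => (j : ℕ) < sd.k s e)
    rw [h3, Finset.card_univ, Fintype.card_fin] at this
    omega
  by_cases ht : tail e = v <;> by_cases hh : head e = v
  · have : (Finset.univ.filter fun j : Fin (mult e) => owner sd s (.inl ⟨e, j⟩) = v)
        = Finset.univ := by
      ext j
      simp only [Finset.mem_filter, Finset.mem_univ, true_and, owner_inl]
      split_ifs <;> simp [ht, hh]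
    rw [this, if_pos ht, if_pos hh, Finset.card_univ, Fintype.card_fin]
    omega
  · have : (Finset.univ.filter fun j : Fin (mult e) => owner sd s (.inl ⟨e, j⟩) = v)
        = Finset.univ.filter fun j : Fin (mult e) => (j : ℕ) < sd.k s e := by
      ext j
      simp only [Finset.mem_filter, Finset.mem_univ, true_and, owner_inl]
      split_ifs with h <;> simp [ht, hh, h]
    rw [this, if_pos ht, if_neg hh, h3, add_zero]
  · have : (Finset.univ.filter fun j : Fin (mult e) => owner sd s (.inl ⟨e, j⟩) = v)
        = Finset.univ.filter fun j : Fin (mult e) => ¬ (j : ℕ) < sd.k s e := by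
      ext j
      simp only [Finset.mem_filter, Finset.mem_univ, true_and, owner_inl]
      split_ifs with h <;> simp [ht, hh, h]
    rw [this, if_neg ht, if_pos hh, h4, zero_add]
  · have : (Finset.univ.filter fun j : Fin (mult e) => owner sd s (.inl ⟨e, j⟩) = v) = ∅ := by
      ext j
      simp only [Finset.mem_filter, Finset.mem_univ, true_and, owner_inl, Finset.notMem_empty,
        iff_false]
      split_ifs with h
      · exact ht
      · exact hh
    rw [this, if_neg ht, if_neg hh, Finset.card_empty, add_zero]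

end fib

section gen

variable {V E G S : Type} [Fintype V] [Fintype E] [Fintype G] [DecidableEq V]
  {tail head : E → V} {tip : G → V} {b : G → E2} {mult : E → ℕ}

/-- position of the items -/
noncomputable def pos (tail head : E → V) (b : G → E2) (mult : E → ℕ) (P : V → E2) (B : E → E2)
    (δ : (Σ e, Fin (mult e)) → ℝ) (ε : ℝ) : (Σ e, Fin (mult e)) ⊕ G → E2
  | .inl x => B x.1 + (ε * δ x) • (P (head x.1) - P (tail x.1))
  | .inr g => b g

/-- dual value minus cost -/
noncomputable def val (P : V → E2) (D : V → ℝ) (ε : ℝ) (t : E2) (Y : V → ℝ) (w : V) (q : E2) : ℝ :=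
  D w + 2 * ε * Y w - (‖P w - q‖ ^ 2 + 2 * inner ℝ q (ε • t))

omit [Fintype V] [Fintype E] [DecidableEq V] in
theorem val_edge (P : V → E2) (D : V → ℝ) (ε : ℝ) (t : E2) (Y : V → ℝ) (e : E) (sc δ : ℝ)
    (hD : D (head e) - D (tail e) = (1 - 2 * sc) * ‖P (head e) - P (tail e)‖ ^ 2) :
    val P D ε t Y (head e) ((P (tail e) + sc • (P (head e) - P (tail e)))
        + (ε * δ) • (P (head e) - P (tail e)))
      - val P D ε t Y (tail e) ((P (tail e) + sc • (P (head e) - P (tail e)))
        + (ε * δ) • (P (head e) - P (tail e)))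
      = 2 * ε * ((Y (head e) - Y (tail e)) + δ * ‖P (head e) - P (tail e)‖ ^ 2) := by
  unfold val
  have h1 : P (head e) - ((P (tail e) + sc • (P (head e) - P (tail e)))
      + (ε * δ) • (P (head e) - P (tail e))) = (1 - sc - ε * δ) • (P (head e) - P (tail e)) := by
    module
  have h2 : P (tail e) - ((P (tail e) + sc • (P (head e) - P (tail e)))
      + (ε * δ) • (P (head e) - P (tail e))) = (- sc - ε * δ) • (P (head e) - P (tail e)) := by
    module
  rw [h1, h2, norm_smul, norm_smul, mul_pow, mul_pow, Real.norm_eq_abs, Real.norm_eq_abs, sq_abs,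
    sq_abs]
  linear_combination hD

omit [Fintype V] [DecidableEq V] in
theorem val_leaf (P : V → E2) (D : V → ℝ) (ε : ℝ) (t : E2) (Y : V → ℝ) (w : V) (q : E2)
    (hl : D w = ‖P w - q‖ ^ 2) :
    val P D ε t Y w q = 2 * ε * (Y w - inner ℝ q t) := by
  unfold val
  rw [inner_smul_right]
  linear_combination hl

theorem realise_gen [Fintype S] (sd : SpotData tail head tip b mult S)
    (P : V → E2) (D : V → ℝ) (B : E → E2) (sc : E → ℝ)
    (hv : ∀ e, 0 < mult e → P (head e) - P (tail e) ≠ 0)
    (hB : ∀ e, B e = P (tail e) + sc e • (P (head e) - P (tail e)))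
    (hD : ∀ e, 0 < mult e →
      D (head e) - D (tail e) = (1 - 2 * sc e) * ‖P (head e) - P (tail e)‖ ^ 2)
    (hp : ∀ e, 0 < mult e → 0 < D (tail e) - (sc e) ^ 2 * ‖P (head e) - P (tail e)‖ ^ 2)
    (hg : ∀ e v, 0 < mult e → v ≠ tail e → v ≠ head e →
      D v - ‖P v - B e‖ ^ 2 < D (tail e) - (sc e) ^ 2 * ‖P (head e) - P (tail e)‖ ^ 2)
    (hl : ∀ g, D (tip g) = ‖P (tip g) - b g‖ ^ 2)
    (hlg : ∀ g v, v ≠ tip g → D v < ‖P v - b g‖ ^ 2) :
    Nonempty (H87RN.Inst (Σ v, Fin (sd.r v)) ((Σ e, Fin (mult e)) ⊕ G) S) := by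
  classical
  -- thresholds
  have hth : ∀ x : (Σ e, Fin (mult e)), ∃ l : ℝ, ∀ s,
      ((x.2 : ℕ) < sd.k s x.1 → sd.Y s (head x.1) - sd.Y s (tail x.1) ≤ l) ∧
      (¬ (x.2 : ℕ) < sd.k s x.1 → l ≤ sd.Y s (head x.1) - sd.Y s (tail x.1)) := by
    intro x
    refine exists_threshold (fun s => sd.Y s (head x.1) - sd.Y s (tail x.1))
      (fun s => (x.2 : ℕ) < sd.k s x.1) fun s s' hs hs' => ?_
    exact sd.mono s s' x.1 (lt_of_le_of_lt (not_lt.1 hs') hs)
  choose l hl1 using hth
  let δ : (Σ e, Fin (mult e)) → ℝ := fun x => - l x / ‖P (head x.1) - P (tail x.1)‖ ^ 2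
  have hmul : ∀ x : (Σ e, Fin (mult e)), 0 < mult x.1 := fun x =>
    lt_of_le_of_lt (Nat.zero_le _) x.2.2
  have hδ : ∀ x, δ x * ‖P (head x.1) - P (tail x.1)‖ ^ 2 = - l x := by
    intro x
    have h0 : ‖P (head x.1) - P (tail x.1)‖ ^ 2 ≠ 0 := by
      have := norm_pos_iff.2 (hv x.1 (hmul x))
      positivity
    exact div_mul_cancel₀ _ h0
  let q : ℝ → (Σ e, Fin (mult e)) ⊕ G → E2 := fun ε x => pos tail head b mult P B δ ε x
  have hcont : ∀ (s : S) (w : V) (x : (Σ e, Fin (mult e)) ⊕ G),
      Continuous fun ε : ℝ => val P D ε (sd.t s) (sd.Y s) w (q ε x) := by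
    intro s w x
    have hq : Continuous fun ε : ℝ => q ε x := by
      rcases x with x | g
      · simp only [q, pos]
        fun_prop
      · simp only [q, pos]
        fun_prop
    unfold val
    fun_prop
  have hq0 : ∀ x : (Σ e, Fin (mult e)), q 0 (.inl x) = B x.1 := by
    intro x
    simp [q, pos]
  have hval0 : ∀ (s : S) (w : V) (p : E2), val P D 0 (sd.t s) (sd.Y s) w p = D w - ‖P w - p‖ ^ 2 := by
    intro s w p
    simp [val]
  have htail0 : ∀ (s : S) (x : (Σ e, Fin (mult e))),
      val P D 0 (sd.t s) (sd.Y s) (tail x.1) (q 0 (.inl x))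
      = D (tail x.1) - (sc x.1) ^ 2 * ‖P (head x.1) - P (tail x.1)‖ ^ 2 := by
    intro s x
    rw [hval0, hq0, hB]
    have : P (tail x.1) - (P (tail x.1) + sc x.1 • (P (head x.1) - P (tail x.1)))
        = (- sc x.1) • (P (head x.1) - P (tail x.1)) := by module
    rw [this, norm_smul, mul_pow, Real.norm_eq_abs, sq_abs]
    ring
  -- strict inequalities for small positive `ε`
  have hA : ∀ᶠ ε in 𝓝[>] (0:ℝ), ∀ (s : S) (x : (Σ e, Fin (mult e))) (w : V),
      w ≠ tail x.1 → w ≠ head x.1 → val P D ε (sd.t s) (sd.Y s) w (q ε (.inl x))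
        < val P D ε (sd.t s) (sd.Y s) (tail x.1) (q ε (.inl x)) := by
    simp only [Filter.eventually_all]
    intro s x w hw1 hw2
    apply Filter.Eventually.filter_mono nhdsWithin_le_nhds
    apply (hcont s w (.inl x)).continuousAt.eventually_lt (hcont s (tail x.1) (.inl x)).continuousAt
    rw [htail0, hval0, hq0]
    exact hg x.1 w (hmul x) hw1 hw2
  have hBp : ∀ᶠ ε in 𝓝[>] (0:ℝ), ∀ (s : S) (x : (Σ e, Fin (mult e))),
      0 < val P D ε (sd.t s) (sd.Y s) (tail x.1) (q ε (.inl x)) := by
    simp only [Filter.eventually_all]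
    intro s x
    apply Filter.Eventually.filter_mono nhdsWithin_le_nhds
    apply continuousAt_const.eventually_lt (hcont s (tail x.1) (.inl x)).continuousAt
    rw [htail0]
    exact hp x.1 (hmul x)
  have hC : ∀ᶠ ε in 𝓝[>] (0:ℝ), ∀ (s : S) (g : G) (w : V), w ≠ tip g →
      val P D ε (sd.t s) (sd.Y s) w (q ε (.inr g)) < 0 := by
    simp only [Filter.eventually_all]
    intro s g w hw
    apply Filter.Eventually.filter_mono nhdsWithin_le_nhds
    apply (hcont s w (.inr g)).continuousAt.eventually_lt continuousAt_const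
    rw [hval0]
    have := hlg g w hw
    simp only [q, pos]
    linarith
  have hpos : ∀ᶠ ε in 𝓝[>] (0:ℝ), 0 < ε := self_mem_nhdsWithin
  obtain ⟨ε, hA, hBp, hC, hε⟩ := (hA.and (hBp.and (hC.and hpos))).exists
  -- the edge values
  have hedge : ∀ (s : S) (x : (Σ e, Fin (mult e))),
      val P D ε (sd.t s) (sd.Y s) (head x.1) (q ε (.inl x))
      - val P D ε (sd.t s) (sd.Y s) (tail x.1) (q ε (.inl x))
      = 2 * ε * ((sd.Y s (head x.1) - sd.Y s (tail x.1)) - l x) := by
    intro s x
    have := val_edge (tail := tail) (head := head) P D ε (sd.t s) (sd.Y s) x.1 (sc x.1) (δ x)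
      (hD x.1 (hmul x))
    rw [hδ, ← hB] at this
    simp only [q, pos]
    rw [this]
    ring
  have hleaf : ∀ (s : S) (g : G), val P D ε (sd.t s) (sd.Y s) (tip g) (q ε (.inr g))
      = 2 * ε * (sd.Y s (tip g) - inner ℝ (b g) (sd.t s)) := by
    intro s g
    exact val_leaf P D ε (sd.t s) (sd.Y s) (tip g) (b g) (hl g)
  let p : S → (Σ e, Fin (mult e)) ⊕ G → ℝ := fun s x =>
    if x ∈ Finset.disjSum Finset.univ (sd.used s) then
      val P D ε (sd.t s) (sd.Y s) (owner sd s x) (q ε x) else 0
  have hmax : ∀ (s : S) (x : (Σ e, Fin (mult e))) (w : V),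
      val P D ε (sd.t s) (sd.Y s) w (q ε (.inl x))
        ≤ val P D ε (sd.t s) (sd.Y s) (owner sd s (.inl x)) (q ε (.inl x)) := by
    intro s x w
    have h1 := hl1 x s
    have h2 := hedge s x
    rw [owner_inl]
    have htl : val P D ε (sd.t s) (sd.Y s) (tail x.1) (q ε (.inl x)) ≤
        val P D ε (sd.t s) (sd.Y s) (if (x.2 : ℕ) < sd.k s x.1 then tail x.1 else head x.1)
          (q ε (.inl x)) := by
      split_ifs with hc
      · exact le_rfl
      · have := h1.2 hc
        nlinarith
    have hhd : val P D ε (sd.t s) (sd.Y s) (head x.1) (q ε (.inl x)) ≤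
        val P D ε (sd.t s) (sd.Y s) (if (x.2 : ℕ) < sd.k s x.1 then tail x.1 else head x.1)
          (q ε (.inl x)) := by
      split_ifs with hc
      · have := h1.1 hc
        nlinarith
      · exact le_rfl
    by_cases hw1 : w = tail x.1
    · rw [hw1]; exact htl
    by_cases hw2 : w = head x.1
    · rw [hw2]; exact hhd
    exact (hA s x w hw1 hw2).le.trans htl
  refine ⟨⟨fun i => P i.1, q ε, fun s => ε • sd.t s,
    fun s => Finset.disjSum Finset.univ (sd.used s), ?_, ?_⟩⟩
  · intro s s' h
    apply sd.inj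
    ext g
    have := congrArg (fun R => (Sum.inr g : (Σ e, Fin (mult e)) ⊕ G) ∈ R) h
    simpa using this
  · intro s π hπ
    obtain ⟨π0, hπ0, hown⟩ := exists_tight sd.r (Finset.disjSum Finset.univ (sd.used s))
      (owner sd s) (card_owner sd s)
    refine map_eq_of_dual
      (fun (i : Σ v, Fin (sd.r v)) x => ‖P i.1 - q ε x‖ ^ 2 + 2 * inner ℝ (q ε x) (ε • sd.t s))
      (fun i => D i.1 + 2 * ε * sd.Y s i.1) (p s) _ ?_ ?_ ?_ π0 hπ0 ?_ π (hπ π0)
    · intro i x
      have key : val P D ε (sd.t s) (sd.Y s) i.1 (q ε x) ≤ p s x := by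
        rcases x with x | g
        · have hm : (Sum.inl x : (Σ e, Fin (mult e)) ⊕ G) ∈
              Finset.disjSum Finset.univ (sd.used s) := by simp
          simp only [p, if_pos hm]
          exact hmax s x i.1
        · by_cases hgu : g ∈ sd.used s
          · have hm : (Sum.inr g : (Σ e, Fin (mult e)) ⊕ G) ∈
                Finset.disjSum Finset.univ (sd.used s) := by simpa using hgu
            simp only [p, if_pos hm, owner_inr]
            by_cases hw : i.1 = tip g
            · rw [hw]
            · have h1 := hC s g i.1 hw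
              have h2 := hleaf s g
              have h3 := sd.leaf_used s g hgu
              have h4 : 0 < val P D ε (sd.t s) (sd.Y s) (tip g) (q ε (.inr g)) := by
                rw [h2]
                have : 0 < sd.Y s (tip g) - inner ℝ (b g) (sd.t s) := by linarith
                positivity
              linarith
          · have hm : (Sum.inr g : (Σ e, Fin (mult e)) ⊕ G) ∉
                Finset.disjSum Finset.univ (sd.used s) := by simpa using hgu
            simp only [p, if_neg hm]
            by_cases hw : i.1 = tip g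
            · rw [hw, hleaf s g]
              have h3 := sd.leaf_unused s g hgu
              nlinarith
            · exact (hC s g i.1 hw).le
      unfold val at key
      linarith
    · intro x hx
      rcases x with x | g
      · simp only [p, if_pos hx]
        exact lt_of_lt_of_le (hBp s x) (hmax s x _)
      · simp only [p, if_pos hx, owner_inr]
        rw [hleaf s g]
        have h3 := sd.leaf_used s g (by simpa using hx)
        have : 0 < sd.Y s (tip g) - inner ℝ (b g) (sd.t s) := by linarith
        positivity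
    · intro x hx
      simp only [p, if_neg hx]
    · intro i
      have hm : π0 i ∈ Finset.disjSum Finset.univ (sd.used s) := by
        rw [← hπ0]
        exact Finset.mem_map_of_mem _ (Finset.mem_univ i)
      have h1 := hown i
      simp only [p, if_pos hm]
      rw [h1]
      unfold val
      ring

theorem card_le_of_spotData [Nonempty S] (sd : SpotData tail head tip b mult S) :
    Fintype.card (Σ v, Fin (sd.r v)) ≤ Fintype.card ((Σ e, Fin (mult e)) ⊕ G) := by
  classical
  obtain ⟨s⟩ := (inferInstance : Nonempty S)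
  obtain ⟨π0, -, -⟩ := exists_tight sd.r (Finset.disjSum Finset.univ (sd.used s))
    (owner sd s) (card_owner sd s)
  exact Fintype.card_le_of_embedding π0

/-- module C1 of plan C: a drawn network with spots gives a price instance -/
theorem realise [Fintype S] [Nonempty S] (P : V → E2) (dr : Drawn tail head tip b mult P)
    (sd : SpotData tail head tip b mult S) :
    Nonempty (H87RN.Inst (Σ v, Fin (sd.r v)) ((Σ e, Fin (mult e)) ⊕ G) S) ∧
      Fintype.card (Σ v, Fin (sd.r v)) ≤ Fintype.card ((Σ e, Fin (mult e)) ⊕ G) := by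
  classical
  refine ⟨?_, card_le_of_spotData sd⟩
  -- the base weights
  obtain ⟨D, hDtip, hDge, hDle⟩ : ∃ D : V → ℝ, (∀ g, D (tip g) = ‖P (tip g) - b g‖ ^ 2) ∧
      (∀ v, 1 - 1 / 32 ≤ D v) ∧ (∀ v, D v ≤ 1 + 1 / 32) := by
    refine ⟨fun v => if h : ∃ g, tip g = v then ‖P v - b h.choose‖ ^ 2 else 1, ?_, ?_, ?_⟩
    · intro g
      have h : ∃ g', tip g' = tip g := ⟨g, rfl⟩
      have h1 : h.choose = g := dr.tip_inj h.choose_spec
      simp only [dif_pos h]
      rw [h1]
    · intro v
      by_cases h : ∃ g, tip g = v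
      · simp only [dif_pos h]
        have := dr.leaf_ge h.choose
        rw [h.choose_spec] at this
        exact this
      · simp only [dif_neg h]
        norm_num
    · intro v
      by_cases h : ∃ g, tip g = v
      · simp only [dif_pos h]
        have := dr.leaf_le h.choose
        rw [h.choose_spec] at this
        exact this
      · simp only [dif_neg h]
        norm_num
  let L : E → ℝ := fun e => ‖P (head e) - P (tail e)‖ ^ 2
  let sc : E → ℝ := fun e => 1 / 2 - (D (head e) - D (tail e)) / (2 * L e)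
  have hL1 : ∀ e, 0 < mult e → 1 ≤ L e := dr.len_ge
  have hL2 : ∀ e, 0 < mult e → L e ≤ 5 / 4 := dr.len_le
  have hscm : ∀ e, 0 < mult e → (1 / 2 - sc e) * (2 * L e) = D (head e) - D (tail e) := by
    intro e he
    have h1 := hL1 e he
    have h0 : (2 * L e) ≠ 0 := by positivity
    simp only [sc]
    rw [sub_sub_cancel]
    exact div_mul_cancel₀ _ h0
  have hsc1 : ∀ e, 0 < mult e → sc e ≤ 17 / 32 := by
    intro e he
    have h1 := hL1 e he
    have h2 := hscm e he
    have h3 := hDge (head e)
    have h4 := hDle (tail e)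
    by_contra hc
    push Not at hc
    nlinarith
  have hsc2 : ∀ e, 0 < mult e → 15 / 32 ≤ sc e := by
    intro e he
    have h1 := hL1 e he
    have h2 := hscm e he
    have h3 := hDge (tail e)
    have h4 := hDle (head e)
    by_contra hc
    push Not at hc
    nlinarith
  have hsq : ∀ e, 0 < mult e → (sc e) ^ 2 * L e ≤ (17 / 32) ^ 2 * L e := by
    intro e he
    have h1 := hL1 e he
    have h2 := hsc1 e he
    have h3 := hsc2 e he
    have : (sc e) ^ 2 ≤ (17 / 32) ^ 2 := by
      apply pow_le_pow_left₀ (by linarith) h2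
    nlinarith
  refine realise_gen sd P D (fun e => P (tail e) + sc e • (P (head e) - P (tail e))) sc
    ?_ (fun e => rfl) ?_ ?_ ?_ hDtip ?_
  · intro e he h0
    have := hL1 e he
    simp only [L, h0, norm_zero] at this
    norm_num at this
  · intro e he
    have := hscm e he
    change D (head e) - D (tail e) = (1 - 2 * sc e) * L e
    linarith
  · intro e he
    change 0 < D (tail e) - (sc e) ^ 2 * L e
    have h1 := hsq e he
    have h2 := hL2 e he
    have h3 := hDge (tail e)
    nlinarith
  · intro e v he hv1 hv2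
    change D v - ‖P v - (P (tail e) + sc e • (P (head e) - P (tail e)))‖ ^ 2
      < D (tail e) - (sc e) ^ 2 * L e
    have h1 := hsq e he
    have h2 := hL2 e he
    have h2' := hL1 e he
    have h3 := hDge (tail e)
    have h4 := hDle v
    have h5 := dr.gap e v he hv1 hv2
    have h6 : P v - (P (tail e) + sc e • (P (head e) - P (tail e)))
        = (P v - midpoint ℝ (P (tail e)) (P (head e)))
          - (sc e - 1 / 2) • (P (head e) - P (tail e)) := by
      rw [midpoint_eq_smul_add]
      have : (⅟2 : ℝ) = 1 / 2 := by simp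
      rw [this]
      module
    have h7 : ∀ x y : E2, 3 / 4 * ‖x‖ ^ 2 - 3 * ‖y‖ ^ 2 ≤ ‖x - y‖ ^ 2 := by
      intro x y
      have e1 := norm_sub_sq_real x y
      have e2 : 0 ≤ ‖(1 / 2 : ℝ) • x - (2 : ℝ) • y‖ ^ 2 := by positivity
      rw [norm_sub_sq_real, norm_smul, norm_smul, inner_smul_left, inner_smul_right] at e2
      simp only [Real.norm_eq_abs] at e2
      norm_num at e2
      nlinarith
    have h8 := h7 (P v - midpoint ℝ (P (tail e)) (P (head e)))
      ((sc e - 1 / 2) • (P (head e) - P (tail e)))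
    rw [← h6] at h8
    have h9 : ‖(sc e - 1 / 2) • (P (head e) - P (tail e))‖ ^ 2 = (sc e - 1 / 2) ^ 2 * L e := by
      rw [norm_smul, mul_pow, Real.norm_eq_abs, sq_abs]
    rw [h9] at h8
    have h10 : (sc e - 1 / 2) ^ 2 ≤ (1 / 32) ^ 2 := by
      have h11 := hsc1 e he
      have h12 := hsc2 e he
      exact sq_le_sq' (by linarith) (by linarith)
    have h5' : L e / 4 + 1 / 2 ≤ ‖P v - midpoint ℝ (P (tail e)) (P (head e))‖ ^ 2 := h5
    nlinarith
  · intro g v hv
    have h1 := dr.leaf_gap g v hv
    have h2 := hDle v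
    linarith

end gen

end RNB
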